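import Mathlib
import Pool.Agent.TH999.GCR.Rate
import Pool.Agent.Results.MP_3f8e47_nt.LongLife

/-!
# The gcd recursion for prime triples: primes or `f(N) ≤ (3/4 + o(1)) N`

The potential `4 n + 3 a(n)` grows by `1` per step between jumps, and a jump by `g` lowers it by
`3 (g - 1)`; the waiting time for a jump divisible by the prime `p ≥ 5` is at most `3 p`. A new
level `4 + 3 a(1) + 3 j` is passed only at a jump by a prime `g = p`, after a waiting time
`> 3 (p - 1)`, and then `j` lies in one of three residue classes modulo `p`. By a sieve most levels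
cost a long time, so that the potential cannot grow linearly.
-/

set_option autoImplicit false

namespace Pool.Agent.Results.MP_3f8e47_nt.ThreeQuarters

open Finset Pool.Agent.H399R2 Pool.Agent.TH999.GCR Pool.Agent.Results.MP_3f8e47_nt.LongLife

lemma b_add_three_mul (n p : ℕ) : b (n + 3 * p) = b n := b_add n p

/-- the segment of the recursion from `1` to its zero is good -/
lemma good (N : ℕ) (hN : 6 ≤ N) (a : ℕ → ℤ) (ha1 : a 1 = (N : ℤ) - 6)
    (ha : ∀ n : ℕ, 2 ≤ n →
      a n = a (n - 1) - ((Int.gcd (a (n - 1)) ((n + b n : ℕ) : ℤ) : ℕ) : ℤ))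
    (f : ℕ) (hf : IsLeast {n : ℕ | 1 ≤ n ∧ a n = 0} f) :
    ∃ (per : ℕ → ℕ) (R : ℕ → Finset ℕ),
      Good (fun k => (a k).natAbs) (fun n => ((n + b n : ℕ) : ℤ)) 1 f 3 3 per R := by
  obtain ⟨⟨hf1, haf⟩, hmin⟩ := hf
  have hmin' : ∀ k, 1 ≤ k → k < f → a k ≠ 0 := by
    intro k hk1 hk2 hk3
    have := hmin ⟨hk1, hk3⟩
    omega
  have hnn : ∀ k, 1 ≤ k → k ≤ f → 0 ≤ a k := by
    intro k hk
    induction k, hk using Nat.le_induction with
    | base => intro _; rw [ha1]; omega
    | succ k hk ih =>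
      intro hkf
      have h1 := ih (by omega)
      have hpos : 0 < a k := lt_of_le_of_ne h1 (Ne.symm (hmin' k hk (by omega)))
      rw [ha (k + 1) (by omega), Nat.add_sub_cancel]
      have := Int.le_of_dvd hpos (Int.gcd_dvd_left (a := a k) (b := ((k + 1 + b (k + 1) : ℕ) : ℤ)))
      linarith
  set V : ℕ → ℤ := fun n => ((n + b n : ℕ) : ℤ) with hVdef
  have hseg : Seg (fun k => (a k).natAbs) V 1 f := by
    refine ⟨hf1, ?_, ?_⟩
    · intro n hn1 hn2
      have h1 := ha (n + 1) (by omega)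
      rw [Nat.add_sub_cancel] at h1
      have h2 : (((a n).natAbs : ℕ) : ℤ) = a n := Int.natAbs_of_nonneg (hnn n hn1 (by omega))
      have h3 : (((a (n + 1)).natAbs : ℕ) : ℤ) = a (n + 1) :=
        Int.natAbs_of_nonneg (hnn (n + 1) (by omega) (by omega))
      have : ((((a (n + 1)).natAbs + Int.gcd (((a n).natAbs : ℕ) : ℤ) (V (n + 1)) : ℕ)) : ℤ)
          = (((a n).natAbs : ℕ) : ℤ) := by
        rw [Nat.cast_add, h2, h3, h1]
        ring
      exact_mod_cast this
    · intro n hn1 hn2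
      exact Int.natAbs_pos.mpr (hmin' n hn1 hn2)
  classical
  set c := (3 + 1) * 1 + 3 * (a 1).natAbs with hc
  refine ⟨fun p => if p ≤ 3 then p else 3 * p,
    fun p => if p ≤ 3 then ∅ else (range 3).biUnion
      (fun i => (range p).filter (fun j => p ∣ 3 * j + i + c + 4 * b (1 + i))), hseg, ?_, ?_, ?_, ?_, ?_⟩
  · intro p hp
    have := hp.pos
    split_ifs <;> omega
  · intro p hp
    split_ifs
    · exact dvd_rfl
    · exact Dvd.intro_left _ rfl
  · intro p hp n hn
    have hp2 := hp.two_le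
    split_ifs with h3
    · have h4 : p = 2 ∨ p = 3 := by omega
      rcases h4 with rfl | rfl
      · have e1 := b_even n
        have e2 := b_even (n + 2)
        simp only [hVdef]
        intro h
        have h5 : 2 ∣ n + 2 + b (n + 2) := by exact_mod_cast h
        have h6 : 2 ∣ n + b n := by omega
        exact_mod_cast h6
      · simp only [hVdef]
        rw [b_add_three]
        intro h
        have h5 : 3 ∣ n + 3 + b n := by exact_mod_cast h
        have h6 : 3 ∣ n + b n := by omega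
        exact_mod_cast h6
    · have e1 : V (n + 3 * p) = V n + (p : ℤ) * 3 := by
        simp only [hVdef]; rw [b_add]; push_cast; ring
      rw [e1]
      exact (Int.dvd_add_left (Dvd.intro _ rfl)).mp
  · intro p hp
    have hp2 := hp.two_le
    by_cases h3 : p ≤ 3
    · left
      rw [if_pos h3]
      omega
    · right
      rw [if_neg h3, if_neg h3]
      refine ⟨le_rfl, ?_⟩
      intro n hn hV j i hi hmod hmod3
      rw [mem_biUnion]
      refine ⟨i, mem_range.mpr hi, ?_⟩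
      rw [mem_filter, mem_range]
      refine ⟨Nat.mod_lt _ hp.pos, ?_⟩
      have hb : b n = b (1 + i) := b_congr hmod3
      have hV' : p ∣ n + b (1 + i) := by
        rw [← hb]
        simp only [hVdef] at hV
        exact_mod_cast hV
      have h5 : p ∣ (3 + 1) * n + 4 * b (1 + i) := by
        have : (3 + 1) * n + 4 * b (1 + i) = 4 * (n + b (1 + i)) := by ring
        rw [this]
        exact Dvd.dvd.mul_left hV' _
      have h6 : (3 + 1) * n + 4 * b (1 + i) ≡ 3 * (j % p) + i + c + 4 * b (1 + i) [MOD p] := by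
        apply Nat.ModEq.add_right
        refine hmod.trans ?_
        have e1 : (3 + 1) * 1 + 3 * (a 1).natAbs + 3 * j + i = 3 * j + (i + c) := by
          rw [hc]; ring
        have e2 : 3 * (j % p) + i + c = 3 * (j % p) + (i + c) := by ring
        rw [e1, e2]
        exact Nat.ModEq.add_right _ (Nat.ModEq.mul_left 3 (Nat.mod_modEq j p).symm)
      exact (Nat.ModEq.dvd_iff h6 dvd_rfl).mp h5
  · intro p hp
    by_cases h3 : p ≤ 3
    · rw [if_pos h3]
      simp
    · rw [if_neg h3]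
      have h4 : ww 3 p = 3 := by
        unfold ww
        rw [if_neg h3]
      rw [h4]
      have h5 := Finset.card_biUnion_le_card_mul (range 3)
        (fun i => (range p).filter (fun j => p ∣ 3 * j + i + c + 4 * b (1 + i))) 1 (by
          intro i _
          rw [Finset.card_le_one]
          intro j hj j' hj'
          rw [mem_filter, mem_range] at hj hj'
          have h1 : 3 * j + (i + c + 4 * b (1 + i)) ≡ 3 * j' + (i + c + 4 * b (1 + i)) [MOD p] := by
            have e1 : 3 * j + i + c + 4 * b (1 + i) = 3 * j + (i + c + 4 * b (1 + i)) := by ring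
            have e2 : 3 * j' + i + c + 4 * b (1 + i) = 3 * j' + (i + c + 4 * b (1 + i)) := by ring
            rw [← e1, ← e2]
            exact ((Nat.modEq_zero_iff_dvd).mpr hj.2).trans ((Nat.modEq_zero_iff_dvd).mpr hj'.2).symm
          have h2 := Nat.ModEq.add_right_cancel' _ h1
          have hcop : Nat.gcd p 3 = 1 := by
            have : Nat.Coprime p 3 := by
              rw [Nat.coprime_primes hp Nat.prime_three]; omega
            exact this
          have h7 : j ≡ j' [MOD p] := Nat.ModEq.cancel_left_of_coprime hcop h2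
          have h8 : j % p = j' % p := h7
          rwa [Nat.mod_eq_of_lt hj.1, Nat.mod_eq_of_lt hj'.1] at h8)
      rw [card_range] at h5
      exact h5

/-- a prime factor of `f + 1`, `f + 3` or `f + 7` bounds the length of the final run -/
lemma detect (a : ℕ → ℤ) (f l : ℕ) (hl1 : 1 ≤ l) (hlf : l ≤ f)
    (htr : ∀ i, l ≤ i → i < f → Int.gcd (((a i).natAbs : ℕ) : ℤ) ((i + 1 + b (i + 1) : ℕ) : ℤ) = 1)
    (hrun : ∀ k, l ≤ k → k ≤ f → (a k).natAbs = f - k) :
    ∀ (p : ℕ), p.Prime → (p ∣ f + 1 ∨ p ∣ f + 3 ∨ p ∣ f + 7) → f - l < 3 * p := by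
  intro p hp hdvd
  by_contra hcon
  push Not at hcon
  have hp2 := hp.two_le
  -- it is enough to find k in the run with p ∣ f - k and p ∣ V (k+1)
  have suff : ∀ k, l ≤ k → k < f → p ∣ f - k → ¬ (p ∣ (k + 1) + b (k + 1)) := by
    intro k hk1 hk2 hk3 hk4
    have h1 := htr k hk1 hk2
    have h2 := hrun k hk1 hk2.le
    have h8 : (p : ℤ) ∣ (Int.gcd (((a k).natAbs : ℕ) : ℤ) ((k + 1 + b (k + 1) : ℕ) : ℤ) : ℤ) := by
      apply Int.dvd_coe_gcd
      · rw [h2]
        exact Int.natCast_dvd_natCast.mpr hk3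
      · exact Int.natCast_dvd_natCast.mpr hk4
    rw [h1] at h8
    have h9 : p ∣ 1 := by exact_mod_cast h8
    exact hp.one_lt.ne' (Nat.dvd_one.mp h9)
  by_cases h23 : p = 2
  · subst h23
    have h1 := suff (f - 2) (by omega) (by omega) (by omega)
    have h2 := b_even (f - 2 + 1)
    omega
  by_cases h33 : p = 3
  · subst h33
    have h1 := suff (f - 3) (by omega) (by omega) (by omega)
    have h2 : b (f - 3 + 1) = b (f + 1) := by apply b_congr; omega
    rw [h2] at h1
    have h3 : b (f + 1) = if (f + 1) % 3 = 1 then 2 else if (f + 1) % 3 = 2 then 6 else 0 := rfl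
    split_ifs at h3 with h4 h5 <;> rw [h3] at h1 <;> omega
  have hcop : Nat.Coprime 3 p := by
    rw [Nat.coprime_primes Nat.prime_three hp]; omega
  -- index i with b i = the right shift
  obtain ⟨i, c, hic, hi1, hdvd'⟩ : ∃ i c : ℕ, b i = c ∧ i < 3 ∧ p ∣ f + 1 + c := by
    rcases hdvd with h | h | h
    · exact ⟨0, 0, rfl, by norm_num, h⟩
    · exact ⟨1, 2, rfl, by norm_num, h⟩
    · exact ⟨2, 6, rfl, by norm_num, h⟩
  obtain ⟨r, hr1, hr2⟩ := Nat.chineseRemainder hcop i (f + 1)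
  obtain ⟨k, hk1, hk2, hk3⟩ := window (3 * p) (by omega) r f (by omega)
  have h3 : k + 1 ≡ f + 1 [MOD p] := (hk3.of_dvd (Dvd.intro_left _ rfl)).trans hr2
  have h4 : k ≡ f [MOD p] := Nat.ModEq.add_right_cancel' 1 h3
  have h5 : p ∣ f - k := (Nat.modEq_iff_dvd' (by omega)).mp h4
  have h6 : k + 1 ≡ i [MOD 3] := (hk3.of_dvd (Dvd.intro _ rfl)).trans hr1
  have h7 : b (k + 1) = c := by rw [← hic]; exact b_congr h6
  apply suff k (by omega) hk2 h5
  rw [h7]
  have h8 : k + 1 + c ≡ f + 1 + c [MOD p] := Nat.ModEq.add_right c h3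
  exact (Nat.ModEq.dvd_iff h8 dvd_rfl).mpr hdvd'

/-- the bound with an explicit rate -/
theorem rate :
    ∃ C : ℝ, 0 < C ∧ ∀ N : ℕ, 6 ≤ N → ∀ a : ℕ → ℤ, a 1 = (N : ℤ) - 6 →
      (∀ n : ℕ, 2 ≤ n → a n = a (n - 1) - ((Int.gcd (a (n - 1)) ((n + b n : ℕ) : ℤ) : ℕ) : ℤ)) →
      ∀ f : ℕ, IsLeast {n : ℕ | 1 ≤ n ∧ a n = 0} f →
        (Nat.Prime (f + 1) ∧ Nat.Prime (f + 3) ∧ Nat.Prime (f + 7)) ∨
          (f : ℝ) ≤ 3 / 4 * N + C * (N / √(Real.log N)) := by
  obtain ⟨C₀, hC₀, hmain⟩ := main_rate 3 3 (by norm_num)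
  refine ⟨(9 + C₀) / 4, by positivity, ?_⟩
  intro N hN a ha1 ha f hf
  obtain ⟨per, R, hgood⟩ := good N hN a ha1 ha f hf
  have hf1 : 1 ≤ f := hf.1.1
  have haf : a f = 0 := hf.1.2
  have hdec := decr hgood.seg f hf1 le_rfl
  have hx1 : (((a 1).natAbs : ℕ) : ℤ) = N - 6 := by
    rw [ha1]; exact Int.natAbs_of_nonneg (by omega)
  have hxf : (a f).natAbs = 0 := by rw [haf]; rfl
  simp only [hxf] at hdec
  have hfN : f + 5 ≤ N := by omega
  have hNr : (6 : ℝ) ≤ N := by exact_mod_cast hN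
  have hfr : (f : ℝ) + 5 ≤ N := by exact_mod_cast hfN
  obtain ⟨l, hsl, hle, htr, hl⟩ := hmain _ _ 1 f per R hgood N (by linarith) (by
    push_cast
    linarith)
  have hrun : ∀ k, l ≤ k → k ≤ f → (a k).natAbs = f - k := by
    intro k hk1 hk2
    have h1 := hgood.seg.run hsl le_rfl htr k hk1 hk2
    simp only [hxf] at h1
    omega
  have hdet := detect a f l hsl hle htr hrun
  set Y := (N : ℝ) / √(Real.log N) with hY
  have hY1 : 1 ≤ Y := rate_ge_one (by linarith)
  -- the inequality in terms of `f - l`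
  have hx1r : ((a 1).natAbs : ℝ) = N - 6 := by exact_mod_cast hx1
  have hxl : ((a l).natAbs : ℝ) = (f : ℝ) - l := by
    rw [hrun l le_rfl hle, Nat.cast_sub hle]
  simp only [hx1r, hxl] at hl
  push_cast at hl
  have key : ∀ p : ℕ, p.Prime → (p ∣ f + 1 ∨ p ∣ f + 3 ∨ p ∣ f + 7) → p ≤ Nat.sqrt (f + 7) →
      (f : ℝ) ≤ 3 / 4 * N + (9 + C₀) / 4 * Y := by
    intro p hp h1 h2
    have h3 := hdet p hp h1
    have h4 : (f : ℝ) - l ≤ 3 * Nat.sqrt (f + 7) := by
      have : f ≤ l + 3 * Nat.sqrt (f + 7) := by omega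
      have h5 : (f : ℝ) ≤ ((l + 3 * Nat.sqrt (f + 7) : ℕ) : ℝ) := by exact_mod_cast this
      push_cast at h5
      linarith
    have h5 : ((Nat.sqrt (f + 7) : ℕ) : ℝ) ≤ √((f + 7 : ℕ) : ℝ) := Real.nat_sqrt_le_real_sqrt
    have h6 : √((f + 7 : ℕ) : ℝ) ≤ 3 * Y := by
      apply sqrt_le_rate (by linarith)
      push_cast
      linarith
    linarith
  by_cases hp1 : Nat.Prime (f + 1)
  · by_cases hp2 : Nat.Prime (f + 3)
    · by_cases hp3 : Nat.Prime (f + 7)
      · exact Or.inl ⟨hp1, hp2, hp3⟩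
      · right
        apply key (Nat.minFac (f + 7)) (Nat.minFac_prime (by omega))
          (Or.inr (Or.inr (Nat.minFac_dvd _)))
        rw [Nat.le_sqrt']
        exact (Nat.minFac_sq_le_self (by omega) hp3).trans (by omega)
    · right
      apply key (Nat.minFac (f + 3)) (Nat.minFac_prime (by omega))
        (Or.inr (Or.inl (Nat.minFac_dvd _)))
      rw [Nat.le_sqrt']
      exact (Nat.minFac_sq_le_self (by omega) hp2).trans (by omega)
  · right
    apply key (Nat.minFac (f + 1)) (Nat.minFac_prime (by omega)) (Or.inl (Nat.minFac_dvd _))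
    rw [Nat.le_sqrt']
    exact (Nat.minFac_sq_le_self (by omega) hp1).trans (by omega)

/-- (1) There is a constant `C` such that for all `N ≥ 6`, either `f(N)+1, f(N)+3, f(N)+7` are all
prime or `f(N) ≤ (3/4) N + C N / √(log N)`. (2) Hence for every `ε > 0` and all large `N` the three
numbers are prime as soon as `f(N) ≥ (3/4 + ε) N`. Here `a = a_N` is the recursion of the problem
and `b` the 3-periodic sequence `2, 6, 0, ...`. -/
theorem result :
    (∃ C : ℝ, 0 < C ∧ ∀ N : ℕ, 6 ≤ N → ∀ a : ℕ → ℤ, a 1 = (N : ℤ) - 6 →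
      (∀ n : ℕ, 2 ≤ n → a n = a (n - 1) - ((Int.gcd (a (n - 1)) ((n + b n : ℕ) : ℤ) : ℕ) : ℤ)) →
      ∀ f : ℕ, IsLeast {n : ℕ | 1 ≤ n ∧ a n = 0} f →
        (Nat.Prime (f + 1) ∧ Nat.Prime (f + 3) ∧ Nat.Prime (f + 7)) ∨
          (f : ℝ) ≤ 3 / 4 * N + C * (N / √(Real.log N))) ∧
    (∀ ε : ℝ, 0 < ε → ∃ N₀ : ℕ, ∀ N : ℕ, N₀ ≤ N → ∀ a : ℕ → ℤ, a 1 = (N : ℤ) - 6 →
      (∀ n : ℕ, 2 ≤ n → a n = a (n - 1) - ((Int.gcd (a (n - 1)) ((n + b n : ℕ) : ℤ) : ℕ) : ℤ)) →
      ∀ f : ℕ, IsLeast {n : ℕ | 1 ≤ n ∧ a n = 0} f →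
        (3 / 4 + ε) * N ≤ f →
        Nat.Prime (f + 1) ∧ Nat.Prime (f + 3) ∧ Nat.Prime (f + 7)) := by
  obtain ⟨C, hC, h⟩ := rate
  refine ⟨⟨C, hC, h⟩, ?_⟩
  intro ε hε
  have hlim : Filter.Tendsto (fun N : ℕ => √(Real.log N)) Filter.atTop Filter.atTop :=
    Real.tendsto_sqrt_atTop.comp (Real.tendsto_log_atTop.comp tendsto_natCast_atTop_atTop)
  obtain ⟨N₁, hN₁⟩ := (hlim.eventually_gt_atTop (C / ε)).exists_forall_of_atTop
  refine ⟨max N₁ 6, ?_⟩
  intro N hN a ha1 ha f hf hfN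
  have hN6 : 6 ≤ N := (le_max_right _ _).trans hN
  rcases h N hN6 a ha1 ha f hf with h1 | h1
  · exact h1
  · exfalso
    have h2 := hN₁ N ((le_max_left _ _).trans hN)
    have hs0 : 0 < √(Real.log N) := lt_trans (by positivity) h2
    have hN0 : (0 : ℝ) < N := by
      have : 0 < N := by omega
      exact_mod_cast this
    have h3 : C * (N / √(Real.log N)) < ε * N := by
      rw [mul_div_assoc', div_lt_iff₀ hs0]
      rw [div_lt_iff₀ hε] at h2
      nlinarith
    nlinarith

end Pool.Agent.Results.MP_3f8e47_nt.ThreeQuarters
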